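import Pool.Agent.P.MP_940262_co.All

/-! How close the minimum `k`-degree of a large `(γ_k, ℓ)`-critical graph can come to its order. -/

namespace Pool.Agent.Results.MP_940262_co.Sharp

open Pool.Agent.P.MP_940262_co

theorem result (k l : ℕ) (hk : 1 ≤ k) (hl : 3 ≤ l) (c : ℝ) :
    (∀ N : ℕ, ∃ (V : Type) (_ : Finite V) (G : SimpleGraph V),
      G.Connected ∧ (∀ v : V, IsKCriticalVertex G k v) ∧ kDomNumber G k = l ∧
        N ≤ Nat.card V ∧ Nat.card V ≤ (minKDegree G k + 1) * (l - 1) ∧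
        (Nat.card V : ℝ) - minKDegree G k ≤ c * (Nat.card V : ℝ) ^ (1 - 1 / ((l : ℝ) - 1))) ↔
      1 < c := by
  obtain ⟨r, rfl⟩ : ∃ r, l = r + 1 := ⟨l - 1, by omega⟩
  simp only [Nat.cast_succ, add_sub_cancel_right, Nat.add_sub_cancel]
  refine ⟨fun h => not_le.1 fun a => ?_, upper_all (by omega) hk⟩
  obtain ⟨V, _, G, -, -, b, -, -, d⟩ := h 0
  have e := lower (G := G) (k := k) (r := r) (by omega) (by omega)
  nlinarith [Real.rpow_nonneg (Nat.cast_nonneg (Nat.card V)) (1 - 1 / r : ℝ)]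

end Pool.Agent.Results.MP_940262_co.Sharp
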